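import Pool.Agent.LE.StmtsI

/-!
# Squad LIR, row DST: the density of states near the edge, on the torus

Elementary proof without integrals: the number of `(u, v)` with `|g u + g v - a| ≤ r`, `g = 4 sin²`,
is at most `12 M² r` (slices, `g u ≥ g v`), then a dyadic decomposition of the kernel.
-/

set_option autoImplicit false

open scoped BigOperators

noncomputable section

namespace Pool.Agent.LE.IR.H55

open Pool.Agent.Anderson hiding box mem_box card_box
open Pool.Agent.Loc Pool.Agent.Mob Pool.Agent.Helper54.Bal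
  Pool.Agent.Helper96.EXP Pool.Agent.BED
open Pool.Agent.LE.MN Pool.Agent.LE.CL

/-! ### one dimension -/

def gu {M : ℕ} (u : ZMod M) : ℝ := 2 * (1 - Real.cos (2 * Real.pi * (u.valMinAbs : ℝ) / M))

def tn {M : ℕ} (u : ZMod M) : ℕ := u.valMinAbs.natAbs

def Xs (M : ℕ) (t : ℝ) : ℝ := 2 * Real.sin (Real.pi * t / M)

lemma gu_eq {M : ℕ} (u : ZMod M) : gu u = Xs M (tn u) ^ 2 := by
  have h1 : ((tn u : ℕ) : ℝ) = |((u.valMinAbs : ℤ) : ℝ)| := by
    unfold tn
    rw [Nat.cast_natAbs, Int.cast_abs]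
  have h2 : Real.sin (Real.pi * (tn u : ℝ) / M) ^ 2 =
      Real.sin (Real.pi * (u.valMinAbs : ℝ) / M) ^ 2 := by
    rw [h1]
    rcases abs_choice ((u.valMinAbs : ℤ) : ℝ) with h | h
    · rw [h]
    · rw [h]
      have : Real.pi * -((u.valMinAbs : ℤ) : ℝ) / M = -(Real.pi * (u.valMinAbs : ℝ) / M) := by ring
      rw [this, Real.sin_neg]
      ring
  unfold gu Xs
  have h3 : 2 * Real.pi * (u.valMinAbs : ℝ) / M = 2 * (Real.pi * (u.valMinAbs : ℝ) / M) := by ring
  rw [h3, Real.cos_two_mul, Real.cos_sq', mul_pow, h2]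
  ring

lemma gu_nonneg {M : ℕ} (u : ZMod M) : 0 ≤ gu u := by
  rw [gu_eq]; positivity

lemma tn_le {M : ℕ} [NeZero M] (u : ZMod M) : (tn u : ℝ) ≤ M / 2 := by
  have h := ZMod.natAbs_valMinAbs_le u
  have h2 : tn u ≤ M / 2 := h
  have h3 : (tn u : ℝ) ≤ ((M / 2 : ℕ) : ℝ) := by exact_mod_cast h2
  exact h3.trans Nat.cast_div_le

lemma Xs_lower {M : ℕ} [NeZero M] {t : ℝ} (h0 : 0 ≤ t) (h1 : t ≤ M / 2) :
    4 * t / M ≤ Xs M t := by
  have hM : (0 : ℝ) < M := by exact_mod_cast Nat.pos_of_ne_zero (NeZero.ne M)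
  have hpi := Real.pi_pos
  have h2 : 0 ≤ Real.pi * t / M := by positivity
  have h3 : Real.pi * t / M ≤ Real.pi / 2 := by
    rw [div_le_div_iff₀ hM (by norm_num)]
    nlinarith
  have h4 := Real.mul_le_sin h2 h3
  have h5 : 2 / Real.pi * (Real.pi * t / M) = 2 * t / M := by
    field_simp
  rw [h5] at h4
  unfold Xs
  have h6 : 4 * t / M = 2 * (2 * t / M) := by ring
  rw [h6]
  linarith

lemma Xs_nonneg {M : ℕ} [NeZero M] (u : ZMod M) : 0 ≤ Xs M (tn u) := by
  have hM : (0 : ℝ) < M := by exact_mod_cast Nat.pos_of_ne_zero (NeZero.ne M)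
  exact le_trans (by positivity) (Xs_lower (Nat.cast_nonneg _) (tn_le u))

lemma tn_of_le {M : ℕ} [NeZero M] (u : ZMod M) {s : ℝ} (hs : 0 ≤ s) (h : gu u ≤ s ^ 2) :
    (tn u : ℝ) ≤ M * s / 4 := by
  have hM : (0 : ℝ) < M := by exact_mod_cast Nat.pos_of_ne_zero (NeZero.ne M)
  rw [gu_eq] at h
  have h1 : Xs M (tn u) ≤ s := by
    rw [sq_le_sq₀ (Xs_nonneg u) hs] at h
    exact h
  have h2 := (Xs_lower (Nat.cast_nonneg _) (tn_le u)).trans h1
  rw [div_le_iff₀ hM] at h2
  linarith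

lemma tn_small {M : ℕ} [NeZero M] (u : ZMod M) (h : gu u ≤ 1) : (tn u : ℝ) ≤ M / 6 := by
  have hM : (0 : ℝ) < M := by exact_mod_cast Nat.pos_of_ne_zero (NeZero.ne M)
  have hpi := Real.pi_pos
  by_contra hc
  push Not at hc
  rw [gu_eq] at h
  have h1 : Xs M (tn u) ≤ 1 := by
    have : Xs M (tn u) ^ 2 ≤ 1 ^ 2 := by simpa using h
    rwa [sq_le_sq₀ (Xs_nonneg u) zero_le_one] at this
  have h2 : Real.pi / 6 < Real.pi * (tn u : ℝ) / M := by
    rw [div_lt_div_iff₀ (by norm_num) hM]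
    nlinarith
  have h3 : Real.pi * (tn u : ℝ) / M ≤ Real.pi / 2 := by
    rw [div_le_div_iff₀ hM (by norm_num)]
    nlinarith [tn_le u]
  have h4 := Real.sin_lt_sin_of_lt_of_le_pi_div_two (by linarith) h3 h2
  rw [Real.sin_pi_div_six] at h4
  unfold Xs at h1
  linarith

lemma gap {M : ℕ} [NeZero M] {t t' : ℝ} (h0 : 0 ≤ t) (h1 : t ≤ t') (h2 : t' ≤ M / 6) :
    3 * (t' - t) / M ≤ Xs M t' - Xs M t := by
  have hM : (0 : ℝ) < M := by exact_mod_cast Nat.pos_of_ne_zero (NeZero.ne M)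
  have hpi := Real.pi_pos
  unfold Xs
  have h3 : 2 * Real.sin (Real.pi * t' / M) - 2 * Real.sin (Real.pi * t / M) =
      4 * Real.sin ((Real.pi * t' / M - Real.pi * t / M) / 2) *
        Real.cos ((Real.pi * t' / M + Real.pi * t / M) / 2) := by
    have := Real.sin_sub_sin (Real.pi * t' / M) (Real.pi * t / M)
    linarith
  rw [h3]
  have ha : 0 ≤ Real.pi * t / M := by positivity
  have hb : Real.pi * t / M ≤ Real.pi * t' / M := by
    apply div_le_div_of_nonneg_right _ hM.le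
    nlinarith
  have hc : Real.pi * t' / M ≤ Real.pi / 6 := by
    rw [div_le_div_iff₀ hM (by norm_num)]
    nlinarith
  have h4 := Real.mul_le_sin (x := (Real.pi * t' / M - Real.pi * t / M) / 2) (by linarith)
    (by linarith)
  have h5 : 2 / Real.pi * ((Real.pi * t' / M - Real.pi * t / M) / 2) = (t' - t) / M := by
    field_simp
  rw [h5] at h4
  have h6 : Real.cos (Real.pi / 6) ≤ Real.cos ((Real.pi * t' / M + Real.pi * t / M) / 2) := by
    apply Real.cos_le_cos_of_nonneg_of_le_pi (by linarith) (by linarith) (by linarith)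
  rw [Real.cos_pi_div_six] at h6
  have h7 : (3 : ℝ) / 4 ≤ Real.sqrt 3 / 2 := by
    have : (3 : ℝ) / 2 ≤ Real.sqrt 3 := by
      apply Real.le_sqrt_of_sq_le
      norm_num
    linarith
  have h8 : 0 ≤ (t' - t) / M := by
    apply div_nonneg _ hM.le
    linarith
  have h9 : 3 * (t' - t) / M = 4 * ((t' - t) / M) * (3 / 4) := by ring
  rw [h9]
  apply mul_le_mul _ (h7.trans h6) (by norm_num) (by linarith)
  linarith

/-! ### counting -/

lemma card_tn_le {M : ℕ} [NeZero M] {K : ℝ} (hK : 0 ≤ K) :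
    ((Finset.univ.filter fun u : ZMod M => (tn u : ℝ) ≤ K).card : ℝ) ≤ 2 * K + 1 := by
  have h1 : (Finset.univ.filter fun u : ZMod M => (tn u : ℝ) ≤ K).card ≤
      (Finset.Icc (-(⌊K⌋₊ : ℤ)) ⌊K⌋₊).card := by
    apply Finset.card_le_card_of_injOn (fun u => u.valMinAbs)
    · intro u hu
      rw [Finset.mem_coe, Finset.mem_filter] at hu
      have h2 : tn u ≤ ⌊K⌋₊ := Nat.le_floor hu.2
      rw [Finset.mem_coe, Finset.mem_Icc]
      unfold tn at h2
      beta_reduce
      omega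
    · intro u _ v _ h
      exact ZMod.valMinAbs_inj.1 h
  have h3 : (Finset.Icc (-(⌊K⌋₊ : ℤ)) ⌊K⌋₊).card = 2 * ⌊K⌋₊ + 1 := by
    rw [Int.card_Icc]
    omega
  rw [h3] at h1
  have h4 : ((Finset.univ.filter fun u : ZMod M => (tn u : ℝ) ≤ K).card : ℝ) ≤
      2 * (⌊K⌋₊ : ℝ) + 1 := by exact_mod_cast h1
  have h5 := Nat.floor_le hK
  linarith

lemma card_tn_between {M : ℕ} [NeZero M] (S : Finset (ZMod M)) {L : ℝ} (hL : 0 ≤ L)
    (h : ∀ u ∈ S, ∀ v ∈ S, (tn u : ℝ) ≤ tn v + L) : (S.card : ℝ) ≤ 2 * (L + 1) := by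
  rcases S.eq_empty_or_nonempty with hS | hS
  · rw [hS, Finset.card_empty]
    push_cast
    linarith
  obtain ⟨v, hv, hmin⟩ := Finset.exists_min_image S tn hS
  set m := tn v with hm
  have h1 : S.card ≤ (Finset.Icc (m : ℤ) (m + ⌊L⌋₊) ∪
      Finset.Icc (-(m + ⌊L⌋₊ : ℤ)) (-m)).card := by
    apply Finset.card_le_card_of_injOn (fun u => u.valMinAbs)
    · intro u hu
      have h2 : m ≤ tn u := hmin u hu
      have h3 : tn u ≤ m + ⌊L⌋₊ := by
        have h4 := h u hu v hv
        have h5 : ((tn u - m : ℕ) : ℝ) ≤ L := by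
          rw [Nat.cast_sub h2]
          linarith
        have h6 := Nat.le_floor h5
        omega
      rw [Finset.mem_coe, Finset.mem_union, Finset.mem_Icc, Finset.mem_Icc]
      unfold tn at h2 h3
      beta_reduce
      omega
    · intro u _ w _ hh
      exact ZMod.valMinAbs_inj.1 hh
  have h2 : (Finset.Icc (m : ℤ) (m + ⌊L⌋₊) ∪
      Finset.Icc (-(m + ⌊L⌋₊ : ℤ)) (-m)).card ≤ 2 * (⌊L⌋₊ + 1) := by
    refine (Finset.card_union_le _ _).trans ?_
    rw [Int.card_Icc, Int.card_Icc]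
    omega
  have h3 : (S.card : ℝ) ≤ 2 * ((⌊L⌋₊ : ℝ) + 1) := by exact_mod_cast h1.trans h2
  have h4 := Nat.floor_le hL
  linarith

lemma card_fib {α β : Type} [DecidableEq β] (s : Finset α) (f : α → β) {A : ℝ}
    (h : ∀ b, ((s.filter fun a => f a = b).card : ℝ) ≤ A) :
    (s.card : ℝ) ≤ A * ((s.image f).card : ℝ) := by
  rw [Finset.card_eq_sum_card_image f s, Nat.cast_sum]
  calc ∑ b ∈ s.image f, ((s.filter fun a => f a = b).card : ℝ)
      ≤ ∑ _b ∈ s.image f, A := Finset.sum_le_sum fun b _ => h b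
    _ = A * ((s.image f).card : ℝ) := by
      rw [Finset.sum_const, nsmul_eq_mul, mul_comm]

lemma half {M : ℕ} [NeZero M] {a r : ℝ} (hr : 1 ≤ M * r) (hr1 : r ≤ 1) (ha : 2 * r < a) :
    ((Finset.univ.filter fun p : ZMod M × ZMod M => gu p.1 ≤ 1 ∧ gu p.2 ≤ gu p.1 ∧
      |gu p.1 + gu p.2 - a| ≤ r).card : ℝ) ≤ 6 * (M : ℝ) ^ 2 * r := by
  have hM : (0 : ℝ) < M := by exact_mod_cast Nat.pos_of_ne_zero (NeZero.ne M)
  have hM1 : (1 : ℝ) ≤ M := by exact_mod_cast Nat.pos_of_ne_zero (NeZero.ne M)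
  have hr0 : 0 < r := by
    by_contra hc
    push Not at hc
    nlinarith
  have ha0 : 0 < a := by linarith
  have hsa : 0 < Real.sqrt a := Real.sqrt_pos.2 ha0
  have hsq : Real.sqrt a ^ 2 = a := Real.sq_sqrt ha0.le
  set P := Finset.univ.filter fun p : ZMod M × ZMod M => gu p.1 ≤ 1 ∧ gu p.2 ≤ gu p.1 ∧
      |gu p.1 + gu p.2 - a| ≤ r with hP
  rcases P.eq_empty_or_nonempty with hE | hE
  · rw [hE, Finset.card_empty]
    push_cast
    positivity
  have ha3 : a ≤ 3 := by
    obtain ⟨p, hp⟩ := hE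
    rw [hP, Finset.mem_filter] at hp
    obtain ⟨-, h1, h2, h3⟩ := hp
    have := (abs_le.1 h3).1
    linarith
  set L : ℝ := 2 * r * M / (3 * Real.sqrt a) with hL
  have hL0 : 0 ≤ L := by positivity
  have key : ∀ p ∈ P, a / 4 ≤ gu p.1 ∧ Real.sqrt a / 2 ≤ Xs M (tn p.1) := by
    intro p hp
    rw [hP, Finset.mem_filter] at hp
    obtain ⟨-, h1, h2, h3⟩ := hp
    have h4 := (abs_le.1 h3).1
    have h5 : a / 4 ≤ gu p.1 := by linarith
    refine ⟨h5, ?_⟩
    rw [gu_eq] at h5
    have h6 : (Real.sqrt a / 2) ^ 2 ≤ Xs M (tn p.1) ^ 2 := by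
      have : (Real.sqrt a / 2) ^ 2 = a / 4 := by rw [div_pow, hsq]; norm_num
      rw [this]; exact h5
    rwa [sq_le_sq₀ (by positivity) (Xs_nonneg _)] at h6
  have h1 : (P.card : ℝ) ≤ (2 * (L + 1)) * ((P.image Prod.snd).card : ℝ) := by
    apply card_fib P Prod.snd
    intro v
    have hinj : ((P.filter fun a => a.2 = v).image Prod.fst).card =
        (P.filter fun a => a.2 = v).card := by
      apply Finset.card_image_of_injOn
      intro x hx y hy hxy
      rw [Finset.mem_coe, Finset.mem_filter] at hx hy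
      exact Prod.ext hxy (hx.2.trans hy.2.symm)
    rw [← hinj]
    apply card_tn_between _ hL0
    intro u hu u' hu'
    rw [Finset.mem_image] at hu hu'
    obtain ⟨p, hp, rfl⟩ := hu
    obtain ⟨p', hp', rfl⟩ := hu'
    rw [Finset.mem_filter] at hp hp'
    by_cases hlt : (tn p.1 : ℝ) ≤ tn p'.1
    · linarith
    push Not at hlt
    have k1 := (key p hp.1).2
    have k2 := (key p' hp'.1).2
    have q1 := (Finset.mem_filter.1 (hP ▸ hp.1)).2
    have q2 := (Finset.mem_filter.1 (hP ▸ hp'.1)).2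
    have g1 := gap (M := M) (Nat.cast_nonneg (tn p'.1)) hlt.le (tn_small p.1 q1.1)
    have e1 := (abs_le.1 q1.2.2).2
    have e2 := (abs_le.1 q2.2.2).1
    rw [hp.2] at e1
    rw [hp'.2] at e2
    have e3 : gu p.1 - gu p'.1 ≤ 2 * r := by linarith
    rw [gu_eq, gu_eq] at e3
    have e4 : Xs M (tn p.1) ^ 2 - Xs M (tn p'.1) ^ 2 =
        (Xs M (tn p.1) - Xs M (tn p'.1)) * (Xs M (tn p.1) + Xs M (tn p'.1)) := by ring
    rw [e4] at e3
    have e5 : 0 ≤ 3 * ((tn p.1 : ℝ) - tn p'.1) / M := by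
      apply div_nonneg _ hM.le
      linarith
    have e6 : (3 * ((tn p.1 : ℝ) - tn p'.1) / M) * Real.sqrt a ≤ 2 * r := by
      refine le_trans ?_ e3
      apply mul_le_mul g1 (by linarith) hsa.le (e5.trans g1)
    have e7 : (tn p.1 : ℝ) - tn p'.1 ≤ L := by
      rw [hL, le_div_iff₀ (by positivity)]
      have : (3 * ((tn p.1 : ℝ) - tn p'.1) / M) * Real.sqrt a =
          ((tn p.1 : ℝ) - tn p'.1) * (3 * Real.sqrt a) / M := by ring
      rw [this, div_le_iff₀ hM] at e6
      exact e6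
    linarith
  have h2 : ((P.image Prod.snd).card : ℝ) ≤ 2 * (M * Real.sqrt a / 4) + 1 := by
    refine le_trans ?_ (card_tn_le (M := M) (by positivity))
    have : (P.image Prod.snd) ⊆
        Finset.univ.filter fun u : ZMod M => (tn u : ℝ) ≤ M * Real.sqrt a / 4 := by
      intro v hv
      rw [Finset.mem_image] at hv
      obtain ⟨p, hp, rfl⟩ := hv
      rw [Finset.mem_filter]
      refine ⟨Finset.mem_univ _, tn_of_le _ hsa.le ?_⟩
      rw [hsq]
      have q1 := (Finset.mem_filter.1 (hP ▸ hp)).2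
      have e1 := (abs_le.1 q1.2.2).2
      have := q1.2.1
      linarith
    exact_mod_cast Finset.card_le_card this
  have h3 : (P.card : ℝ) ≤ (2 * (L + 1)) * (2 * (M * Real.sqrt a / 4) + 1) :=
    h1.trans (mul_le_mul_of_nonneg_left h2 (by positivity))
  refine h3.trans ?_
  have e1 : (2 * (L + 1)) * (2 * (M * Real.sqrt a / 4) + 1) =
      2 / 3 * (M : ℝ) ^ 2 * r + 4 / 3 * (M * r / Real.sqrt a) + M * Real.sqrt a + 2 := by
    rw [hL]
    field_simp
    ring
  rw [e1]
  have e2 : (M : ℝ) ≤ (M : ℝ) ^ 2 * r := by nlinarith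
  have e3 : (1 : ℝ) ≤ (M : ℝ) ^ 2 * r := hM1.trans e2
  have e4 : M * Real.sqrt a ≤ 1.8 * ((M : ℝ) ^ 2 * r) := by
    have : Real.sqrt a ≤ 1.8 := by
      rw [Real.sqrt_le_left (by norm_num)]
      norm_num
      linarith
    nlinarith
  have e5 : M * r / Real.sqrt a ≤ (M : ℝ) ^ 2 * r := by
    rw [div_le_iff₀ hsa]
    have hs : (1 : ℝ) ≤ M * Real.sqrt a := by
      have h6 : Real.sqrt r ≤ Real.sqrt a := Real.sqrt_le_sqrt (by linarith)
      have h7 : r ≤ Real.sqrt r := by
        apply Real.le_sqrt_of_sq_le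
        nlinarith
      nlinarith
    have : M * r * 1 ≤ M * r * (M * Real.sqrt a) :=
      mul_le_mul_of_nonneg_left hs (by positivity)
    nlinarith
  nlinarith

lemma two {M : ℕ} [NeZero M] {a r : ℝ} (hr : 1 ≤ M * r) :
    ((Finset.univ.filter fun p : ZMod M × ZMod M => gu p.1 ≤ 1 ∧ gu p.2 ≤ 1 ∧
      |gu p.1 + gu p.2 - a| ≤ r).card : ℝ) ≤ 12 * (M : ℝ) ^ 2 * r := by
  have hM : (0 : ℝ) < M := by exact_mod_cast Nat.pos_of_ne_zero (NeZero.ne M)
  have hM1 : (1 : ℝ) ≤ M := by exact_mod_cast Nat.pos_of_ne_zero (NeZero.ne M)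
  have hr0 : 0 < r := by
    by_contra hc
    push Not at hc
    nlinarith
  by_cases hr1 : r ≤ 1
  swap
  · push Not at hr1
    have h1 : ((Finset.univ.filter fun p : ZMod M × ZMod M => gu p.1 ≤ 1 ∧ gu p.2 ≤ 1 ∧
      |gu p.1 + gu p.2 - a| ≤ r).card : ℝ) ≤ (M : ℝ) ^ 2 := by
      have h2 := Finset.card_filter_le (Finset.univ : Finset (ZMod M × ZMod M))
        (fun p : ZMod M × ZMod M => gu p.1 ≤ 1 ∧ gu p.2 ≤ 1 ∧ |gu p.1 + gu p.2 - a| ≤ r)
      rw [Finset.card_univ, Fintype.card_prod, ZMod.card] at h2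
      have h3 : ((Finset.univ.filter fun p : ZMod M × ZMod M => gu p.1 ≤ 1 ∧ gu p.2 ≤ 1 ∧
        |gu p.1 + gu p.2 - a| ≤ r).card : ℝ) ≤ ((M * M : ℕ) : ℝ) := by exact_mod_cast h2
      rw [Nat.cast_mul, ← sq] at h3
      exact h3
    nlinarith [sq_nonneg (M : ℝ)]
  by_cases ha : a ≤ 2 * r
  · set K : ℝ := M * Real.sqrt (3 * r) / 4 with hK
    have hK0 : 0 ≤ K := by positivity
    have hsub : (Finset.univ.filter fun p : ZMod M × ZMod M => gu p.1 ≤ 1 ∧ gu p.2 ≤ 1 ∧
        |gu p.1 + gu p.2 - a| ≤ r) ⊆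
        (Finset.univ.filter fun u : ZMod M => (tn u : ℝ) ≤ K) ×ˢ
          (Finset.univ.filter fun u : ZMod M => (tn u : ℝ) ≤ K) := by
      intro p hp
      rw [Finset.mem_filter] at hp
      obtain ⟨-, h1, h2, h3⟩ := hp
      have h4 := (abs_le.1 h3).2
      rw [Finset.mem_product, Finset.mem_filter, Finset.mem_filter]
      have g1 := gu_nonneg p.1
      have g2 := gu_nonneg p.2
      have hs : Real.sqrt (3 * r) ^ 2 = 3 * r := Real.sq_sqrt (by positivity)
      exact ⟨⟨Finset.mem_univ _, tn_of_le _ (Real.sqrt_nonneg _) (by rw [hs]; linarith)⟩,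
        ⟨Finset.mem_univ _, tn_of_le _ (Real.sqrt_nonneg _) (by rw [hs]; linarith)⟩⟩
    have h1 := Finset.card_le_card hsub
    rw [Finset.card_product] at h1
    have h2 : ((Finset.univ.filter fun p : ZMod M × ZMod M => gu p.1 ≤ 1 ∧ gu p.2 ≤ 1 ∧
        |gu p.1 + gu p.2 - a| ≤ r).card : ℝ) ≤ (2 * K + 1) ^ 2 := by
      have h3 : ((Finset.univ.filter fun p : ZMod M × ZMod M => gu p.1 ≤ 1 ∧ gu p.2 ≤ 1 ∧
        |gu p.1 + gu p.2 - a| ≤ r).card : ℝ) ≤
          ((Finset.univ.filter fun u : ZMod M => (tn u : ℝ) ≤ K).card : ℝ) *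
          ((Finset.univ.filter fun u : ZMod M => (tn u : ℝ) ≤ K).card : ℝ) := by
        exact_mod_cast h1
      have h4 := card_tn_le (M := M) hK0
      have h5 : (0 : ℝ) ≤ ((Finset.univ.filter fun u : ZMod M => (tn u : ℝ) ≤ K).card : ℝ) :=
        Nat.cast_nonneg _
      rw [sq]
      exact h3.trans (mul_le_mul h4 h4 h5 (by positivity))
    refine h2.trans ?_
    have hs : Real.sqrt (3 * r) ^ 2 = 3 * r := Real.sq_sqrt (by positivity)
    have h6 : (1 : ℝ) ≤ M * Real.sqrt (3 * r) := by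
      have h7 : r ≤ Real.sqrt (3 * r) := by
        apply Real.le_sqrt_of_sq_le
        nlinarith
      nlinarith
    have h8 : 2 * K + 1 ≤ 3 / 2 * (M * Real.sqrt (3 * r)) := by
      rw [hK]; linarith
    have h9 : (2 * K + 1) ^ 2 ≤ (3 / 2 * (M * Real.sqrt (3 * r))) ^ 2 :=
      pow_le_pow_left₀ (by positivity) h8 2
    have h10 : (3 / 2 * (M * Real.sqrt (3 * r))) ^ 2 = 27 / 4 * ((M : ℝ) ^ 2 * r) := by
      rw [mul_pow, mul_pow, hs]; ring
    rw [h10] at h9
    have h11 : 0 ≤ (M : ℝ) ^ 2 * r := by positivity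
    linarith
  · push Not at ha
    have h1 := half (M := M) hr hr1 ha
    set P1 := Finset.univ.filter fun p : ZMod M × ZMod M => gu p.1 ≤ 1 ∧ gu p.2 ≤ gu p.1 ∧
      |gu p.1 + gu p.2 - a| ≤ r with hP1
    have hsub : (Finset.univ.filter fun p : ZMod M × ZMod M => gu p.1 ≤ 1 ∧ gu p.2 ≤ 1 ∧
        |gu p.1 + gu p.2 - a| ≤ r) ⊆ P1 ∪ P1.image Prod.swap := by
      intro p hp
      rw [Finset.mem_filter] at hp
      obtain ⟨-, q1, q2, q3⟩ := hp
      rw [Finset.mem_union]
      rcases le_total (gu p.2) (gu p.1) with h | h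
      · left
        rw [hP1, Finset.mem_filter]
        exact ⟨Finset.mem_univ _, q1, h, q3⟩
      · right
        rw [Finset.mem_image]
        refine ⟨p.swap, ?_, Prod.swap_swap p⟩
        rw [hP1, Finset.mem_filter]
        refine ⟨Finset.mem_univ _, q2, h, ?_⟩
        show |gu p.2 + gu p.1 - a| ≤ r
        rw [add_comm (gu p.2)]
        exact q3
    have h2 := (Finset.card_le_card hsub).trans (Finset.card_union_le _ _)
    have h3 : (P1.image Prod.swap).card ≤ P1.card := Finset.card_image_le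
    have h4 : ((Finset.univ.filter fun p : ZMod M × ZMod M => gu p.1 ≤ 1 ∧ gu p.2 ≤ 1 ∧
        |gu p.1 + gu p.2 - a| ≤ r).card : ℝ) ≤ (P1.card : ℝ) + (P1.card : ℝ) := by
      exact_mod_cast h2.trans (Nat.add_le_add_left h3 _)
    linarith

lemma ds_eq {d M : ℕ} (p : Tor d M) : ds p = ∑ i, gu (p i) := rfl

lemma cnt {d M : ℕ} [NeZero M] (hd : 3 ≤ d) {e l r : ℝ} (he : 0 < e) (he1 : e ≤ 1)
    (hr : 1 ≤ M * r) (hMe : 1 ≤ M * Real.sqrt e) :
    ((Finset.univ.filter fun p : Tor d M => ds p ≤ e ∧ |ds p - l| ≤ r).card : ℝ) ≤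
      12 * (M : ℝ) ^ 2 * r * (3 / 2 * (M * Real.sqrt e)) ^ (d - 2) := by
  classical
  have hM : (0 : ℝ) < M := by exact_mod_cast Nat.pos_of_ne_zero (NeZero.ne M)
  have hr0 : 0 < r := by
    by_contra hc
    push Not at hc
    nlinarith
  set i0 : Fin d := ⟨0, by omega⟩ with hi0
  set i1 : Fin d := ⟨1, by omega⟩ with hi1
  have hne : i1 ≠ i0 := by
    intro h
    have := congrArg Fin.val h
    simp [hi0, hi1] at this
  set S := Finset.univ.filter fun p : Tor d M => ds p ≤ e ∧ |ds p - l| ≤ r with hS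
  set f : Tor d M → Tor d M := fun p => Function.update (Function.update p i0 0) i1 0 with hf
  have hf0 : ∀ p : Tor d M, ∀ i, i ≠ i0 → i ≠ i1 → f p i = p i := by
    intro p i h0 h1
    simp only [hf]
    rw [Function.update_of_ne h1, Function.update_of_ne h0]
  have hf1 : ∀ p : Tor d M, ∀ i, i = i0 ∨ i = i1 → f p i = 0 := by
    intro p i h
    simp only [hf]
    by_cases h1 : i = i1
    · rw [h1, Function.update_self]
    · rw [Function.update_of_ne h1]
      rcases h with h | h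
      · rw [h, Function.update_self]
      · exact absurd h h1
  have hds : ∀ p : Tor d M, ds p = gu (p i0) + (gu (p i1) +
      ∑ i ∈ (Finset.univ.erase i0).erase i1, gu (p i)) := by
    intro p
    rw [ds_eq, ← Finset.add_sum_erase Finset.univ (fun i => gu (p i)) (Finset.mem_univ i0),
      ← Finset.add_sum_erase (Finset.univ.erase i0) (fun i => gu (p i))
        (Finset.mem_erase.2 ⟨hne, Finset.mem_univ i1⟩)]
  have hgle : ∀ p : Tor d M, ∀ i, gu (p i) ≤ ds p := by
    intro p i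
    rw [ds_eq]
    exact Finset.single_le_sum (f := fun i => gu (p i)) (fun i _ => gu_nonneg _)
      (Finset.mem_univ i)
  have h1 : (S.card : ℝ) ≤ (12 * (M : ℝ) ^ 2 * r) * ((S.image f).card : ℝ) := by
    apply card_fib S f
    intro q
    set c := ∑ i ∈ (Finset.univ.erase i0).erase i1, gu (q i) with hc
    refine le_trans ?_ (two (M := M) (a := l - c) hr)
    have : (S.filter fun a => f a = q).card ≤ (Finset.univ.filter fun p : ZMod M × ZMod M =>
        gu p.1 ≤ 1 ∧ gu p.2 ≤ 1 ∧ |gu p.1 + gu p.2 - (l - c)| ≤ r).card := by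
      apply Finset.card_le_card_of_injOn (fun p => (p i0, p i1))
      · intro p hp
        rw [Finset.mem_coe, Finset.mem_filter] at hp
        obtain ⟨hp1, hp2⟩ := hp
        rw [hS, Finset.mem_filter] at hp1
        rw [Finset.mem_coe, Finset.mem_filter]
        refine ⟨Finset.mem_univ _, ((hgle p i0).trans hp1.2.1).trans he1,
          ((hgle p i1).trans hp1.2.1).trans he1, ?_⟩
        have h3 := hp1.2.2
        have hcc : ∑ i ∈ (Finset.univ.erase i0).erase i1, gu (p i) = c := by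
          rw [hc]
          apply Finset.sum_congr rfl
          intro i hi
          rw [Finset.mem_erase, Finset.mem_erase] at hi
          rw [← hp2, hf0 p i hi.2.1 hi.1]
        rw [hds p, hcc] at h3
        have h4 : gu (p i0) + gu (p i1) - (l - c) = gu (p i0) + (gu (p i1) + c) - l := by ring
        show |gu (p i0) + gu (p i1) - (l - c)| ≤ r
        rw [h4]
        exact h3
      · intro p hp p' hp' hpp
        rw [Finset.mem_coe, Finset.mem_filter] at hp hp'
        have e0 : p i0 = p' i0 := congrArg Prod.fst hpp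
        have e1 : p i1 = p' i1 := congrArg Prod.snd hpp
        funext i
        by_cases h0 : i = i0
        · rw [h0]; exact e0
        by_cases h1 : i = i1
        · rw [h1]; exact e1
        rw [← hf0 p i h0 h1, ← hf0 p' i h0 h1, hp.2, hp'.2]
    exact_mod_cast this
  have h2 : ((S.image f).card : ℝ) ≤ (3 / 2 * (M * Real.sqrt e)) ^ (d - 2) := by
    set B := Finset.univ.filter fun u : ZMod M => (tn u : ℝ) ≤ M * Real.sqrt e / 4 with hB
    have hBc : (B.card : ℝ) ≤ 3 / 2 * (M * Real.sqrt e) := by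
      have := card_tn_le (M := M) (K := M * Real.sqrt e / 4) (by positivity)
      rw [hB]
      linarith
    have hsub : S.image f ⊆ Fintype.piFinset
        (fun i : Fin d => if i = i0 ∨ i = i1 then ({0} : Finset (ZMod M)) else B) := by
      intro q hq
      rw [Finset.mem_image] at hq
      obtain ⟨p, hp, rfl⟩ := hq
      rw [hS, Finset.mem_filter] at hp
      rw [Fintype.mem_piFinset]
      intro i
      by_cases h : i = i0 ∨ i = i1
      · rw [if_pos h, Finset.mem_singleton]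
        exact hf1 p i h
      · rw [if_neg h]
        push Not at h
        rw [hf0 p i h.1 h.2, hB, Finset.mem_filter]
        refine ⟨Finset.mem_univ _, tn_of_le _ (Real.sqrt_nonneg _) ?_⟩
        rw [Real.sq_sqrt he.le]
        exact (hgle p i).trans hp.2.1
    have hcard := Finset.card_le_card hsub
    rw [Fintype.card_piFinset] at hcard
    have hprod : ∏ i : Fin d, (if i = i0 ∨ i = i1 then ({0} : Finset (ZMod M)) else B).card =
        B.card ^ (d - 2) := by
      have e1 : ∀ i : Fin d, (if i = i0 ∨ i = i1 then ({0} : Finset (ZMod M)) else B).card =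
          if i ∈ (Finset.univ.erase i0).erase i1 then B.card else 1 := by
        intro i
        by_cases h : i = i0 ∨ i = i1
        · rw [if_pos h, if_neg, Finset.card_singleton]
          rw [Finset.mem_erase, Finset.mem_erase]
          rintro ⟨a1, a2, -⟩
          rcases h with h | h
          · exact a2 h
          · exact a1 h
        · rw [if_neg h, if_pos]
          push Not at h
          exact Finset.mem_erase.2 ⟨h.2, Finset.mem_erase.2 ⟨h.1, Finset.mem_univ i⟩⟩
      rw [Finset.prod_congr rfl fun i _ => e1 i, Finset.prod_ite_mem, Finset.univ_inter,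
        Finset.prod_const]
      congr 1
      rw [Finset.card_erase_of_mem (Finset.mem_erase.2 ⟨hne, Finset.mem_univ i1⟩),
        Finset.card_erase_of_mem (Finset.mem_univ i0), Finset.card_univ, Fintype.card_fin]
      omega
    rw [hprod] at hcard
    have h3 : ((S.image f).card : ℝ) ≤ (B.card : ℝ) ^ (d - 2) := by exact_mod_cast hcard
    exact h3.trans (pow_le_pow_left₀ (Nat.cast_nonneg _) hBc _)
  exact h1.trans (mul_le_mul_of_nonneg_left h2 (by positivity))

/-! ### the kernel -/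

lemma kern {x η : ℝ} (hη : 0 < η) (J : ℕ) (hJ : |x| ≤ 2 ^ J * η) :
    η / (x ^ 2 + η ^ 2) ≤
      ∑ j ∈ Finset.range (J + 1), 4 / (4 ^ j * η) * (if |x| ≤ 2 ^ j * η then 1 else 0) := by
  classical
  have hex : ∃ j : ℕ, |x| ≤ 2 ^ j * η := ⟨J, hJ⟩
  set j0 := Nat.find hex with hj0
  have hle : j0 ≤ J := Nat.find_min' hex hJ
  have hspec : |x| ≤ 2 ^ j0 * η := Nat.find_spec hex
  have h1 : 4 / (4 ^ j0 * η) * (if |x| ≤ 2 ^ j0 * η then (1 : ℝ) else 0) ≤
      ∑ j ∈ Finset.range (J + 1), 4 / (4 ^ j * η) * (if |x| ≤ 2 ^ j * η then 1 else 0) := by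
    apply Finset.single_le_sum
      (f := fun j : ℕ => 4 / (4 ^ j * η) * (if |x| ≤ 2 ^ j * η then (1 : ℝ) else 0))
    · intro j _
      apply mul_nonneg (by positivity)
      split_ifs <;> norm_num
    · rw [Finset.mem_range]; omega
  refine le_trans ?_ h1
  rw [if_pos hspec, mul_one]
  rcases Nat.eq_zero_or_pos j0 with h0 | h0
  · rw [h0, pow_zero, one_mul, div_le_div_iff₀ (by positivity) hη]
    nlinarith [sq_nonneg x, sq_nonneg η]
  · obtain ⟨j, hj⟩ : ∃ j, j0 = j + 1 := ⟨j0 - 1, by omega⟩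
    have hn : ¬ |x| ≤ 2 ^ j * η := Nat.find_min hex (by omega)
    push Not at hn
    have h2 : (2 ^ j * η) ^ 2 ≤ x ^ 2 := by
      rw [← sq_abs x]
      exact pow_le_pow_left₀ (by positivity) hn.le 2
    have h3 : ((2 : ℝ) ^ j * η) ^ 2 = 4 ^ j * η ^ 2 := by
      rw [mul_pow, ← pow_mul, mul_comm j 2, pow_mul]
      norm_num
    rw [h3] at h2
    rw [hj, div_le_div_iff₀ (by positivity) (by positivity), pow_succ]
    have h4 : 0 ≤ η ^ 2 := by positivity
    nlinarith

theorem dst : DstStmt := by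
  classical
  intro d hd
  set C : ℝ := 96 * (3 / 2) ^ (d - 2) with hC
  have hC1 : 1 ≤ C := by
    have : (1 : ℝ) ≤ (3 / 2) ^ (d - 2) := one_le_pow₀ (by norm_num)
    rw [hC]; linarith
  refine ⟨C, hC1, ?_⟩
  intro M _ e l η hη hηe he1 hM'
  have hM : (0 : ℝ) < M := by exact_mod_cast Nat.pos_of_ne_zero (NeZero.ne M)
  have he : 0 < e := hη.trans_le hηe
  have hMη : 1 ≤ M * η := by
    rw [div_le_iff₀ hη] at hM'
    linarith
  have hMe : 1 ≤ M * Real.sqrt e := by
    have h1 : e ≤ Real.sqrt e := by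
      apply Real.le_sqrt_of_sq_le
      nlinarith
    have h2 : M * η ≤ M * Real.sqrt e := mul_le_mul_of_nonneg_left (hηe.trans h1) hM.le
    linarith
  obtain ⟨J, hJ⟩ : ∃ J : ℕ, ∀ p : Tor d M, |ds p - l| ≤ 2 ^ J * η := by
    obtain ⟨J, hJ⟩ := pow_unbounded_of_one_lt
      ((∑ p : Tor d M, |ds p - l|) / η) (one_lt_two : (1 : ℝ) < 2)
    refine ⟨J, fun p => ?_⟩
    rw [div_lt_iff₀ hη] at hJ
    refine le_trans ?_ hJ.le
    exact Finset.single_le_sum (f := fun p : Tor d M => |ds p - l|)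
      (fun p _ => abs_nonneg _) (Finset.mem_univ p)
  set D : ℝ := 12 * (M : ℝ) ^ 2 * (3 / 2 * (M * Real.sqrt e)) ^ (d - 2) with hD
  have hD0 : 0 ≤ D := by positivity
  have hsum : (∑ p : Tor d M, if ds p ≤ e then η / ((ds p - l) ^ 2 + η ^ 2) else 0) ≤ 8 * D := by
    calc (∑ p : Tor d M, if ds p ≤ e then η / ((ds p - l) ^ 2 + η ^ 2) else 0)
        ≤ ∑ p : Tor d M, ∑ j ∈ Finset.range (J + 1), 4 / (4 ^ j * η) *
            (if ds p ≤ e ∧ |ds p - l| ≤ 2 ^ j * η then 1 else 0) := by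
          apply Finset.sum_le_sum
          intro p _
          by_cases hp : ds p ≤ e
          · rw [if_pos hp]
            refine (kern hη J (hJ p)).trans (le_of_eq ?_)
            apply Finset.sum_congr rfl
            intro j _
            by_cases hq : |ds p - l| ≤ 2 ^ j * η
            · rw [if_pos hq, if_pos ⟨hp, hq⟩]
            · rw [if_neg hq, if_neg fun h => hq h.2]
          · rw [if_neg hp]
            apply Finset.sum_nonneg
            intro j _
            apply mul_nonneg (by positivity)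
            split_ifs <;> norm_num
      _ = ∑ j ∈ Finset.range (J + 1), 4 / (4 ^ j * η) *
            ((Finset.univ.filter fun p : Tor d M => ds p ≤ e ∧ |ds p - l| ≤ 2 ^ j * η).card : ℝ) := by
          rw [Finset.sum_comm]
          apply Finset.sum_congr rfl
          intro j _
          rw [← Finset.mul_sum, Finset.sum_boole]
      _ ≤ ∑ j ∈ Finset.range (J + 1), 4 * D * (1 / 2) ^ j := by
          apply Finset.sum_le_sum
          intro j _
          have h2 : (1 : ℝ) ≤ 2 ^ j := one_le_pow₀ (by norm_num)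
          have h1 := cnt (M := M) hd (l := l) (r := 2 ^ j * η) he he1 (by nlinarith) hMe
          have h3 : 4 / (4 ^ j * η) * (12 * (M : ℝ) ^ 2 * (2 ^ j * η) *
              (3 / 2 * (M * Real.sqrt e)) ^ (d - 2)) = 4 * D * (1 / 2) ^ j := by
            rw [hD]
            have h4 : (4 : ℝ) ^ j = 2 ^ j * 2 ^ j := by rw [← mul_pow]; norm_num
            rw [h4, div_pow, one_pow]
            field_simp
          rw [← h3]
          exact mul_le_mul_of_nonneg_left h1 (by positivity)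
      _ = 4 * D * ∑ j ∈ Finset.range (J + 1), (1 / 2 : ℝ) ^ j := by rw [Finset.mul_sum]
      _ ≤ 4 * D * 2 := by
          apply mul_le_mul_of_nonneg_left _ (by positivity)
          rw [geom_sum_eq (by norm_num)]
          have : (0 : ℝ) < (1 / 2) ^ (J + 1) := by positivity
          rw [div_le_iff_of_neg (by norm_num)]
          linarith
      _ = 8 * D := by ring
  unfold pm
  rw [div_le_iff₀ (by positivity)]
  refine hsum.trans (le_of_eq ?_)
  have hpow : Real.sqrt e ^ (d - 2) = e ^ (((d : ℝ) - 2) / 2) := by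
    rw [Real.sqrt_eq_rpow, ← Real.rpow_natCast, ← Real.rpow_mul he.le]
    congr 1
    rw [Nat.cast_sub (by omega)]
    push_cast
    ring
  have hMd : (M : ℝ) ^ d = (M : ℝ) ^ 2 * (M : ℝ) ^ (d - 2) := by
    rw [← pow_add]
    congr 1
    omega
  rw [hD, hC, ← hpow, hMd, mul_pow, mul_pow]
  ring

end Pool.Agent.LE.IR.H55
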